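import Pool.Agent.N139.AS.Defs

/-!
# Project AS: FG, EMB, RF for the concrete group (helper547)
-/

set_option autoImplicit false

open Pool.Agent.N139.AS

namespace Pool.Agent.N547.AS.Alg

variable (p : ℕ)

/-- the element `(a, 0)` -/
noncomputable def ea (a : Lam →₀ ZMod p) : NN p := ⟨a, 0⟩

/-- the element `(0, l)` -/
noncomputable def el (l : Lam) : NN p := ⟨0, l⟩

lemma trl_zero (a : Lam →₀ ZMod p) : trl p 0 a = a := by
  ext y
  rw [trl_apply, neg_zero, zero_add]

lemma trl_single (l y : Lam) (c : ZMod p) :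
    trl p l (Finsupp.single y c) = Finsupp.single (l + y) c := by
  unfold trl
  rw [Finsupp.domCongr_apply, Finsupp.equivMapDomain_single]
  rfl

lemma trl_trl (l m : Lam) (a : Lam →₀ ZMod p) : trl p l (trl p m a) = trl p (l + m) a := by
  ext y
  rw [trl_apply, trl_apply, trl_apply]
  congr 1
  abel

lemma ea_add (a b : Lam →₀ ZMod p) : ea p (a + b) = ea p a * ea p b := by
  ext1
  · show a + b = a + trl p 0 b
    rw [trl_zero]
  · show (0 : Lam) = 0 + 0
    simp

lemma ea_zero : ea p 0 = 1 := rfl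

lemma el_add (l m : Lam) : el p (l + m) = el p l * el p m := by
  ext1
  · show (0 : Lam →₀ ZMod p) = 0 + trl p l 0
    simp
  · rfl

lemma el_zero : el p 0 = 1 := rfl

lemma el_ea (l : Lam) (a : Lam →₀ ZMod p) : el p l * ea p a = ea p (trl p l a) * el p l := by
  ext1
  · show (0 : Lam →₀ ZMod p) + trl p l a = trl p l a + trl p 0 0
    simp
  · show l + 0 = 0 + l
    simp

lemma ea_el (x : NN p) : x = ea p x.a * el p x.l := by
  ext1
  · show x.a = x.a + trl p 0 0
    simp
  · show x.l = 0 + x.l
    simp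

lemma shL_lam (k : ℤ) : shL (lam k) = lam (k + 1) := by
  unfold shL lam
  rw [Finsupp.domCongr_apply, Finsupp.equivMapDomain_single]
  rfl

lemma shN_el (l : Lam) : shN p (el p l) = el p (shL l) := by
  ext1
  · show shA p 0 = 0
    simp
  · rfl

lemma shN_ea (a : Lam →₀ ZMod p) : shN p (ea p a) = ea p (shA p a) := by
  ext1
  · rfl
  · show shL 0 = 0
    simp

lemma shA_trl (l : Lam) (a : Lam →₀ ZMod p) : shA p (trl p l a) = trl p (shL l) (shA p a) := by
  ext y
  have h : shL.symm (-shL l + y) = -l + shL.symm y := by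
    rw [map_add, map_neg, AddEquiv.symm_apply_apply]
  rw [shA_apply, trl_apply, trl_apply, shA_apply, h]

lemma lam_two (k : ℤ) : lam k + lam k = 0 := by
  unfold lam
  rw [← Finsupp.single_add]
  have : (1 : ZMod 2) + 1 = 0 := by decide
  rw [this, Finsupp.single_zero]

lemma tt_conj (n : NN p) : tt (SS p) * inn (SS p) n * (tt (SS p))⁻¹ = inn (SS p) (shN p n) := by
  rw [tt_mul]
  show inn (SS p) (shN p n) * tt (SS p) * (tt (SS p))⁻¹ = _
  rw [mul_inv_cancel_right]

/-! ### FG -/

theorem fg [Fact p.Prime] : Group.FG (GG (SS p)) := by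
  classical
  obtain ⟨C, hC⟩ : ∃ C : Subgroup (GG (SS p)), C = Subgroup.closure
      (({tt (SS p), inn (SS p) (el p (lam 0)), inn (SS p) (ea p (Finsupp.single 0 1))} :
        Finset (GG (SS p))) : Set (GG (SS p))) := ⟨_, rfl⟩
  have h1 : tt (SS p) ∈ C := by
    rw [hC]; exact Subgroup.subset_closure (by simp)
  have h2 : inn (SS p) (el p (lam 0)) ∈ C := by
    rw [hC]; exact Subgroup.subset_closure (by simp)
  have h3 : inn (SS p) (ea p (Finsupp.single 0 1)) ∈ C := by
    rw [hC]; exact Subgroup.subset_closure (by simp)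
  have hstep : ∀ k : ℤ, inn (SS p) (el p (lam k)) ∈ C ↔ inn (SS p) (el p (lam (k + 1))) ∈ C := by
    intro k
    have e : inn (SS p) (el p (lam (k + 1))) =
        tt (SS p) * inn (SS p) (el p (lam k)) * (tt (SS p))⁻¹ := by
      rw [tt_conj, shN_el, shL_lam]
    rw [e]
    constructor
    · intro h
      exact C.mul_mem (C.mul_mem h1 h) (C.inv_mem h1)
    · intro h
      have h' := C.mul_mem (C.mul_mem (C.inv_mem h1) h) h1
      have e2 : (tt (SS p))⁻¹ * (tt (SS p) * inn (SS p) (el p (lam k)) * (tt (SS p))⁻¹) *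
        tt (SS p) = inn (SS p) (el p (lam k)) := by group
      rwa [e2] at h'
  have hlam : ∀ k : ℤ, inn (SS p) (el p (lam k)) ∈ C := by
    intro k
    induction k using Int.induction_on with
    | zero => exact h2
    | succ k ih => exact (hstep k).1 ih
    | pred k ih =>
      rw [hstep, sub_add_cancel]
      exact ih
  have hl : ∀ l : Lam, inn (SS p) (el p l) ∈ C := by
    intro l
    induction l using Finsupp.induction_linear with
    | zero => rw [el_zero, map_one]; exact C.one_mem
    | add l m hl hm => rw [el_add, map_mul]; exact C.mul_mem hl hm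
    | single i c =>
      have hc : c = 0 ∨ c = 1 := by revert c; decide
      rcases hc with rfl | rfl
      · rw [Finsupp.single_zero, el_zero, map_one]; exact C.one_mem
      · exact hlam i
  have hsm : ∀ k : ℕ, inn (SS p) (ea p (Finsupp.single 0 (k : ZMod p))) ∈ C := by
    intro k
    induction k with
    | zero => rw [Nat.cast_zero, Finsupp.single_zero, ea_zero, map_one]; exact C.one_mem
    | succ k ih =>
      rw [Nat.cast_succ, Finsupp.single_add, ea_add, map_mul]
      exact C.mul_mem ih h3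
  have ha : ∀ a : Lam →₀ ZMod p, inn (SS p) (ea p a) ∈ C := by
    intro a
    induction a using Finsupp.induction_linear with
    | zero => rw [ea_zero, map_one]; exact C.one_mem
    | add l m hl hm => rw [ea_add, map_mul]; exact C.mul_mem hl hm
    | single l c =>
      have e : ea p (Finsupp.single l c) = el p l * ea p (Finsupp.single 0 c) * (el p l)⁻¹ := by
        rw [el_ea, trl_single, add_zero, mul_inv_cancel_right]
      rw [e, map_mul, map_mul, map_inv]
      refine C.mul_mem (C.mul_mem (hl l) ?_) (C.inv_mem (hl l))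
      have := hsm c.val
      rwa [ZMod.natCast_zmod_val] at this
  refine ⟨⟨_, hC.symm.trans (eq_top_iff.2 fun g _ => ?_)⟩⟩
  have e1 : g = inn (SS p) g.left * SemidirectProduct.inr g.right :=
    (SemidirectProduct.inl_left_mul_inr_right g).symm
  have e2 : (SemidirectProduct.inr g.right : GG (SS p)) =
      tt (SS p) ^ (Multiplicative.toAdd g.right) := by
    unfold tt
    rw [← map_zpow, ← ofAdd_zsmul]
    simp
  rw [e1, e2]
  refine C.mul_mem ?_ (C.zpow_mem h1 _)
  rw [ea_el p g.left, map_mul]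
  exact C.mul_mem (ha _) (hl _)

/-! ### EMB -/

/-- the function of `hh` -/
noncomputable def h0 : Lam →₀ ZMod p :=
  Finsupp.single 0 1 - Finsupp.single (lam 0) 1 + Finsupp.single (lam 1) 1 -
    Finsupp.single (lam 0 + lam 1) 1

/-- the function of `uu` -/
noncomputable def u0 : Lam →₀ ZMod p :=
  Finsupp.single 0 1 + Finsupp.single (lam 0) 1 - Finsupp.single (lam 1) 1 -
    Finsupp.single (lam 0 + lam 1) 1

lemma hh_eq : hh p = ea p (h0 p) := rfl

lemma uu_eq : uu p = ea p (u0 p) := rfl

lemma lam_ne (k : ℤ) : lam k ≠ 0 := by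
  intro h
  have := DFunLike.congr_fun h k
  unfold lam at this
  rw [Finsupp.single_eq_same, Finsupp.zero_apply] at this
  exact absurd this (by decide)

lemma lam01_ne : lam 0 + lam 1 ≠ 0 := by
  intro h
  have := DFunLike.congr_fun h 0
  unfold lam at this
  rw [Finsupp.add_apply, Finsupp.single_eq_same, Finsupp.single_eq_of_ne (by norm_num),
    Finsupp.zero_apply] at this
  exact absurd this (by decide)

lemma h0_zero : h0 p 0 = 1 := by
  unfold h0
  rw [Finsupp.sub_apply, Finsupp.add_apply, Finsupp.sub_apply, Finsupp.single_eq_same,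
    Finsupp.single_eq_of_ne (lam_ne 0).symm, Finsupp.single_eq_of_ne (lam_ne 1).symm,
    Finsupp.single_eq_of_ne lam01_ne.symm]
  ring

theorem emb : ∃ i : Multiplicative (ZMod p) →* GG (SS p),
    Function.Injective i ∧ i (Multiplicative.ofAdd 1) = inn (SS p) (hh p) := by
  refine ⟨⟨⟨fun c => inn (SS p) (ea p ((Multiplicative.toAdd c) • h0 p)), ?_⟩, ?_⟩, ?_, ?_⟩
  · show inn (SS p) (ea p ((0 : ZMod p) • h0 p)) = 1
    rw [zero_smul, ea_zero, map_one]
  · intro c d
    show inn (SS p) (ea p ((Multiplicative.toAdd c + Multiplicative.toAdd d) • h0 p)) = _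
    rw [add_smul, ea_add, map_mul]
  · intro c d h
    have h1 : inn (SS p) (ea p ((Multiplicative.toAdd c) • h0 p)) =
      inn (SS p) (ea p ((Multiplicative.toAdd d) • h0 p)) := h
    have h2 := SemidirectProduct.inl_injective h1
    have h3 : (Multiplicative.toAdd c) • h0 p = (Multiplicative.toAdd d) • h0 p :=
      congrArg NN.a h2
    have h4 := DFunLike.congr_fun h3 0
    rw [Finsupp.smul_apply, Finsupp.smul_apply, h0_zero, smul_eq_mul, smul_eq_mul, mul_one,
      mul_one] at h4
    exact Multiplicative.toAdd.injective h4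
  · show inn (SS p) (ea p ((1 : ZMod p) • h0 p)) = inn (SS p) (hh p)
    rw [one_smul, hh_eq]

/-! ### RF -/

/-- the operator `1 - l_k` -/
noncomputable def P (k : ℕ) (a : Lam →₀ ZMod p) : Lam →₀ ZMod p := a - trl p (lam k) a

variable {p}

lemma P_add (k : ℕ) (a b : Lam →₀ ZMod p) : P p k (a + b) = P p k a + P p k b := by
  unfold P
  rw [map_add]
  abel

lemma P_sub (k : ℕ) (a b : Lam →₀ ZMod p) : P p k (a - b) = P p k a - P p k b := by
  unfold P
  rw [map_sub]
  abel

lemma P_comm (j k : ℕ) (a : Lam →₀ ZMod p) : P p j (P p k a) = P p k (P p j a) := by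
  unfold P
  rw [map_sub, map_sub, trl_trl, trl_trl, add_comm (lam (j : ℤ)) (lam (k : ℤ))]
  abel

lemma P_sq (k : ℕ) (a : Lam →₀ ZMod p) : P p k (P p k a) = P p k a + P p k a := by
  unfold P
  rw [map_sub, trl_trl, lam_two, trl_zero]
  abel

section rf

variable {V : AddSubgroup (Lam →₀ ZMod p)}
  (ht : ∀ (l : Lam) (a : Lam →₀ ZMod p), a ∈ V → trl p l a ∈ V)

include ht in
lemma P_mem (k : ℕ) {a : Lam →₀ ZMod p} (h : a ∈ V) : P p k a ∈ V := V.sub_mem h (ht _ _ h)

include ht in
/-- the abstract argument -/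
lemma chain (h2 : ∀ a, a + a ∈ V → a ∈ V)
    (hst : ∀ (k : ℕ) (a : Lam →₀ ZMod p), P p k (P p (k + 1) a) - (P p k a + P p k a) ∈ V)
    {M : ℕ} (hM : 0 < M) (hper : ∀ a, P p M a - P p 0 a ∈ V) (a : Lam →₀ ZMod p) :
    P p 0 a - P p 1 a ∈ V := by
  have key : ∀ (j k : ℕ) (a : Lam →₀ ZMod p),
      P p k (P p (k + (j + 1)) a) - (P p k a + P p k a) ∈ V := by
    intro j
    induction j with
    | zero => exact hst
    | succ j ih =>
      intro k a
      apply h2
      have a1 := ih k (P p (k + (j + 1 + 1)) a)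
      have a2 := P_mem ht k (hst (k + (j + 1)) a)
      have a3 := ih k a
      rw [P_sub, P_add] at a2
      have a4 := V.add_mem (V.neg_mem a1) (V.add_mem a2 (V.add_mem a3 a3))
      have e : k + (j + 1) + 1 = k + (j + 1 + 1) := by ring
      rw [e] at a4
      refine (congrArg (· ∈ V) ?_).mp a4
      abel
  rcases Nat.lt_or_ge 1 M with h | h
  · obtain ⟨j, rfl⟩ : ∃ j, M = 1 + (j + 1) := ⟨M - 2, by omega⟩
    apply h2
    have a1 := key j 1 a
    have a2 := P_mem ht 1 (hper a)
    have a3 := hst 0 a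
    rw [P_sub] at a2
    rw [P_comm 1 0] at a2
    have a4 := V.add_mem (V.sub_mem a1 a2) (V.neg_mem a3)
    refine (congrArg (· ∈ V) ?_).mp a4
    rw [zero_add]
    abel
  · obtain rfl : M = 1 := by omega
    have := V.neg_mem (hper a)
    refine (congrArg (· ∈ V) ?_).mp this
    abel

end rf

theorem rf [Fact p.Prime] (hp : p ≠ 2) (Q : Type) [Group Q] [Finite Q]
    (ρ : GG (SS p) →* Q) (hρ : ρ (inn (SS p) (hh p)) = 1) : ρ (inn (SS p) (uu p)) = 1 := by
  obtain ⟨V, hV⟩ : ∃ V : AddSubgroup (Lam →₀ ZMod p), ∀ a, a ∈ V ↔ ρ (inn (SS p) (ea p a)) = 1 := by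
    refine ⟨⟨⟨⟨{a | ρ (inn (SS p) (ea p a)) = 1}, ?_⟩, ?_⟩, ?_⟩, fun a => Iff.rfl⟩
    · intro a b (ha : ρ (inn (SS p) (ea p a)) = 1) (hb : ρ (inn (SS p) (ea p b)) = 1)
      show ρ (inn (SS p) (ea p (a + b))) = 1
      rw [ea_add, map_mul, map_mul, ha, hb, one_mul]
    · show ρ (inn (SS p) (ea p 0)) = 1
      rw [ea_zero, map_one, map_one]
    · intro a (ha : ρ (inn (SS p) (ea p a)) = 1)
      show ρ (inn (SS p) (ea p (-a))) = 1
      have h1 : ea p (-a) * ea p a = 1 := by rw [← ea_add, neg_add_cancel, ea_zero]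
      have h2 := congrArg (fun x => ρ (inn (SS p) x)) h1
      simp only [map_mul, map_one] at h2
      rwa [ha, mul_one] at h2
  -- conjugation by the lamps and the shift
  have hcl : ∀ (l : Lam) (a : Lam →₀ ZMod p), ρ (inn (SS p) (ea p (trl p l a))) =
      ρ (inn (SS p) (el p l)) * ρ (inn (SS p) (ea p a)) * (ρ (inn (SS p) (el p l)))⁻¹ := by
    intro l a
    rw [eq_mul_inv_iff_mul_eq, ← map_mul, ← map_mul, ← map_mul, ← map_mul, el_ea]
  have hcs : ∀ (n : NN p), ρ (inn (SS p) (shN p n)) =
      ρ (tt (SS p)) * ρ (inn (SS p) n) * (ρ (tt (SS p)))⁻¹ := by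
    intro n
    rw [← tt_conj, map_mul, map_mul, map_inv]
  have ht : ∀ (l : Lam) (a : Lam →₀ ZMod p), a ∈ V → trl p l a ∈ V := by
    intro l a ha
    rw [hV] at ha ⊢
    rw [hcl, ha, mul_one, mul_inv_cancel]
  have hs : ∀ a : Lam →₀ ZMod p, a ∈ V → shA p a ∈ V := by
    intro a ha
    rw [hV] at ha ⊢
    rw [← shN_ea, hcs, ha, mul_one, mul_inv_cancel]
  have h2 : ∀ a, a + a ∈ V → a ∈ V := by
    intro a ha
    have hodd : Odd p := (Fact.out : p.Prime).odd_of_ne_two hp
    obtain ⟨r, hr⟩ := hodd
    have h3 : (p : ℕ) • a = 0 := by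
      ext y
      rw [Finsupp.smul_apply, Finsupp.zero_apply, nsmul_eq_mul, CharP.cast_eq_zero, zero_mul]
    have h4 := V.nsmul_mem ha (r + 1)
    have h5 : (r + 1) • (a + a) = p • a + a := by
      rw [← two_nsmul, smul_smul, ← succ_nsmul]
      congr 1
      omega
    rwa [h5, h3, zero_add] at h4
  -- the relation of `hh`
  have hG0 : ∀ a : Lam →₀ ZMod p, P p 0 (a + trl p (lam 1) a) ∈ V := by
    intro a
    induction a using Finsupp.induction_linear with
    | zero =>
      have : P p 0 ((0 : Lam →₀ ZMod p) + trl p (lam 1) 0) = 0 := by unfold P; simp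
      rw [this]
      exact V.zero_mem
    | add l m hl hm =>
      have := V.add_mem hl hm
      rw [← P_add] at this
      refine (congrArg (· ∈ V) ?_).mp this
      congr 1
      rw [map_add]
      abel
    | single l c =>
      have h3 : ∀ k : ℕ, P p 0 (Finsupp.single l (k : ZMod p) +
          trl p (lam 1) (Finsupp.single l (k : ZMod p))) ∈ V := by
        intro k
        induction k with
        | zero =>
          rw [Nat.cast_zero, Finsupp.single_zero]
          have : P p 0 ((0 : Lam →₀ ZMod p) + trl p (lam 1) 0) = 0 := by unfold P; simp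
          rw [this]
          exact V.zero_mem
        | succ k ih =>
          have h4 : P p 0 (Finsupp.single l (1 : ZMod p) +
              trl p (lam 1) (Finsupp.single l (1 : ZMod p))) ∈ V := by
            have h5 : h0 p ∈ V := by
              rw [hV, ← hh_eq]
              exact hρ
            have h6 := ht l _ h5
            refine (congrArg (· ∈ V) ?_).mp h6
            unfold h0 P
            simp only [map_sub, map_add, trl_single, Nat.cast_zero, add_zero]
            rw [add_comm l (lam 0), add_comm l (lam 1), add_comm l (lam 0 + lam 1), add_assoc]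
            abel
          have h5 := V.add_mem ih h4
          rw [← P_add] at h5
          refine (congrArg (· ∈ V) ?_).mp h5
          congr 1
          rw [Nat.cast_succ, Finsupp.single_add, map_add]
          abel
      have := h3 c.val
      rwa [ZMod.natCast_zmod_val] at this
  have hG : ∀ (k : ℕ) (a : Lam →₀ ZMod p), P p k (a + trl p (lam ((k + 1 : ℕ) : ℤ)) a) ∈ V := by
    intro k
    induction k with
    | zero => intro a; simpa using hG0 a
    | succ k ih =>
      intro a
      have h3 := hs _ (ih ((shA p).symm a))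
      refine (congrArg (· ∈ V) ?_).mp h3
      unfold P
      rw [map_sub, map_add, shA_trl, shA_trl, map_add, shA_trl, shL_lam, shL_lam,
        AddEquiv.apply_symm_apply]
      push_cast
      rfl
  have hst : ∀ (k : ℕ) (a : Lam →₀ ZMod p),
      P p k (P p (k + 1) a) - (P p k a + P p k a) ∈ V := by
    intro k a
    have h3 := V.neg_mem (hG k a)
    refine (congrArg (· ∈ V) ?_).mp h3
    have e : P p (k + 1) a = (a + a) - (a + trl p (lam ((k + 1 : ℕ) : ℤ)) a) := by
      unfold P
      abel
    rw [e]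
    simp only [P_sub, P_add]
    abel
  -- periodicity
  obtain ⟨M, hM, hM1⟩ : ∃ M : ℕ, 0 < M ∧ (ρ (tt (SS p))) ^ M = 1 :=
    ⟨orderOf (ρ (tt (SS p))), orderOf_pos _, pow_orderOf_eq_one _⟩
  have hlamk : ∀ k : ℕ, ρ (inn (SS p) (el p (lam (k : ℤ)))) =
      (ρ (tt (SS p))) ^ k * ρ (inn (SS p) (el p (lam 0))) * ((ρ (tt (SS p))) ^ k)⁻¹ := by
    intro k
    induction k with
    | zero => simp
    | succ k ih =>
      have e : el p (lam ((k + 1 : ℕ) : ℤ)) = shN p (el p (lam (k : ℤ))) := by
        rw [shN_el, shL_lam]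
        push_cast
        rfl
      rw [e, hcs, ih, pow_succ']
      group
  have hper : ∀ a, P p M a - P p 0 a ∈ V := by
    intro a
    have h3 : ρ (inn (SS p) (ea p (trl p (lam (M : ℤ)) a))) =
        ρ (inn (SS p) (ea p (trl p (lam 0) a))) := by
      rw [hcl, hcl, hlamk M, hM1, one_mul, inv_one, mul_one]
    have h4 : trl p (lam 0) a - trl p (lam (M : ℤ)) a ∈ V := by
      rw [hV]
      have h5 : ea p (trl p (lam 0) a) = ea p (trl p (lam 0) a - trl p (lam (M : ℤ)) a) *
          ea p (trl p (lam (M : ℤ)) a) := by rw [← ea_add, sub_add_cancel]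
      have h6 := congrArg (fun x => ρ (inn (SS p) x)) h5
      simp only [map_mul] at h6
      rw [h3] at h6
      exact (mul_eq_right.1 h6.symm)
    refine (congrArg (· ∈ V) ?_).mp h4
    unfold P
    push_cast
    abel
  have hfin := chain ht h2 hst hM hper
  rw [uu_eq, ← hV]
  -- `uu = (2 - P 0) P 1 δ`
  have h3 := P_mem ht 1 (hfin (Finsupp.single 0 1))
  rw [P_sub, P_sq, P_comm 1 0] at h3
  have h4 := V.neg_mem h3
  refine (congrArg (· ∈ V) ?_).mp h4
  unfold u0 P
  simp only [map_sub, trl_single, Nat.cast_zero, Nat.cast_one, add_zero]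
  abel

end Pool.Agent.N547.AS.Alg
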