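import Pool.Agent.N139.AS.Stm
import Pool.Agent.N547.AS.Alg

/-! # Project AS, FG, EMB, RF (helper547) -/

set_option autoImplicit false

namespace Pool.Agent.N547.AS

theorem t_FG : Pool.Agent.N139.AS.S_FG := fun p _ => Alg.fg p

theorem t_EMB : Pool.Agent.N139.AS.S_EMB := fun p _ => Alg.emb p

theorem t_RF : Pool.Agent.N139.AS.S_RF := fun _ _ hp Q _ _ ρ h => Alg.rf hp Q ρ h

end Pool.Agent.N547.AS
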