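import Pool.Agent.N547.AS.NotFlex
import Pool.Agent.N139.AS.Stm2

/-! # Project AS, NOTP (helper547) -/

set_option autoImplicit false

namespace Pool.Agent.N547.AS

open Filter Topology Equiv Pool.Agent.H698R3 Pool.Agent.H698R3.Amalg Pool.Agent.H698R4
open Pool.Agent.N139.AS

/-- Every homomorphism of the amalgam to a finite group kills `u`. -/
theorem amalg_kill {G₁ G₂ H : Type} [Group G₁] [Group G₂] [Group H] (f₁ : H →* G₁) (f₂ : H →* G₂)
    (h0 : H) (u : G₂)
    (hk1 : ∀ (Q : Type) [Group Q] [Finite Q] (ρ : G₁ →* Q) (g : G₁), ρ g = 1)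
    (hk2 : ∀ (Q : Type) [Group Q] [Finite Q] (ρ : G₂ →* Q), ρ (f₂ h0) = 1 → ρ u = 1)
    (Q : Type) [Group Q] [Finite Q] (ρ : AmalgProd f₁ f₂ →* Q) :
    ρ (QuotientGroup.mk (Monoid.Coprod.inr u)) = 1 := by
  let N := Subgroup.normalClosure
    (Set.range (fun h : H => (Monoid.Coprod.inl (f₁ h) : Monoid.Coprod G₁ G₂) *
      (Monoid.Coprod.inr (f₂ h))⁻¹))
  let ι₁ : G₁ →* AmalgProd f₁ f₂ := (QuotientGroup.mk' N).comp Monoid.Coprod.inl
  let ι₂ : G₂ →* AmalgProd f₁ f₂ := (QuotientGroup.mk' N).comp Monoid.Coprod.inr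
  have hι : ∀ h, ι₁ (f₁ h) = ι₂ (f₂ h) := by
    intro h
    show (QuotientGroup.mk' N) (Monoid.Coprod.inl (f₁ h)) =
      (QuotientGroup.mk' N) (Monoid.Coprod.inr (f₂ h))
    have h1 : (Monoid.Coprod.inl (f₁ h) : Monoid.Coprod G₁ G₂) *
      (Monoid.Coprod.inr (f₂ h))⁻¹ ∈ N := Subgroup.subset_normalClosure ⟨h, rfl⟩
    have h2 : (QuotientGroup.mk' N) ((Monoid.Coprod.inl (f₁ h) : Monoid.Coprod G₁ G₂) *
      (Monoid.Coprod.inr (f₂ h))⁻¹) = 1 := (QuotientGroup.eq_one_iff _).mpr h1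
    rw [map_mul, map_inv] at h2
    exact mul_inv_eq_one.mp h2
  refine hk2 Q (ρ.comp ι₂) ?_
  show ρ (ι₂ (f₂ h0)) = 1
  rw [← hι]
  exact hk1 Q (ρ.comp ι₁) (f₁ h0)

theorem ct_eq {X : Type} [Fintype X] (P : X → Prop) [DecidablePred P] :
    ct P = ((Finset.univ.filter P).card : ℝ) := by
  unfold ct
  congr!

theorem hdist_le {X : Type} [Fintype X] [DecidableEq X] [Nonempty X] (σ : Perm X) (L : ℕ)
    (hL : 0 < L) (h : L * ct (fun x => σ x ≠ x) ≤ Fintype.card X) :
    Stab.hammingDist σ 1 ≤ 1 / (L : ℝ) := by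
  classical
  rw [hamming_le_iff _ _ _ (by positivity)]
  have hL' : (0 : ℝ) < L := by exact_mod_cast hL
  have h1 : ct (fun x => σ x ≠ x) = ((Finset.univ.filter (fun x => σ x ≠ (1 : Perm X) x)).card : ℝ) := by
    exact ct_eq (fun x => σ x ≠ (1 : Perm X) x)
  rw [← h1, div_mul_eq_mul_div, one_mul, le_div_iff₀ hL', mul_comm]
  exact h

theorem hdist_ge {X : Type} [Fintype X] [DecidableEq X] [Nonempty X] (σ : Perm X) (L : ℕ)
    (hL : 2 ≤ L) (h : L * ct (fun x => σ x = x) ≤ Fintype.card X) :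
    (1 : ℝ) / 4 ≤ Stab.hammingDist σ 1 := by
  classical
  by_contra hcon
  push Not at hcon
  have h2 := (hamming_le_iff σ 1 (1 / 4) (by norm_num)).mp hcon.le
  have h1 : ct (fun x => σ x = x) = ((Finset.univ.filter (fun x => σ x = x)).card : ℝ) := by
    exact ct_eq _
  have h3 : (Finset.univ.filter (fun x => σ x = x)).card +
      (Finset.univ.filter (fun x => σ x ≠ (1 : Perm X) x)).card = Fintype.card X := by
    rw [← Finset.card_univ]
    exact Finset.card_filter_add_card_filter_not (fun x => σ x = x)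
  have h4 : (0 : ℝ) < Fintype.card X := by exact_mod_cast Fintype.card_pos
  have h5 : (2 : ℝ) ≤ L := by exact_mod_cast hL
  have h6 : ((Finset.univ.filter (fun x => σ x = x)).card : ℝ) +
      ((Finset.univ.filter (fun x => σ x ≠ (1 : Perm X) x)).card : ℝ) = Fintype.card X := by
    exact_mod_cast h3
  rw [h1] at h
  have h7 : (0 : ℝ) ≤ ((Finset.univ.filter (fun x => σ x = x)).card : ℝ) := Nat.cast_nonneg _
  nlinarith

theorem ct_conj {X : Type} [Fintype X] {k : ℕ} (e : X ≃ Fin k) (σ : Perm X) :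
    ct (fun y => e.permCongr σ y ≠ y) = ct (fun x => σ x ≠ x) ∧
      ct (fun y => e.permCongr σ y = y) = ct (fun x => σ x = x) := by
  classical
  rw [ct_eq, ct_eq, ct_eq, ct_eq]
  constructor
  · congr 1
    rw [Finset.card_filter, Finset.card_filter, ← Equiv.sum_comp e]
    simp
  · congr 1
    rw [Finset.card_filter, Finset.card_filter, ← Equiv.sum_comp e]
    simp

/-- **NOTP.** -/
theorem t_NOTP : S_NOTP := by
  classical
  intro G₁ G₂ H _ _ _ _ f₁ f₂ h0 u _ _ hz hk1 hk2 hL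
  choose X iF iN ψ hψ1 hψ2 using fun n : ℕ => hL (n + 2) (by omega)
  have key : ¬ Flex opsP (AmalgProd f₁ f₂) := by
    refine not_flex permCls_metric f₁ f₂ h0 u hz (fun n => Fintype.card (X n))
      (fun n => transp (Fintype.equivFin (X n)) (ψ n)) ?_ (1 / 4) (by norm_num) ?_ ?_
    · refine squeeze_zero (fun n => permCls_metric.nonneg _ _ _) (fun n => ?_)
        (tendsto_one_div_add_atTop_nhds_zero_nat (𝕜 := ℝ))
      have : Nonempty (Fin (Fintype.card (X n))) := ⟨Fintype.equivFin (X n) (iN n).some⟩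
      have h1 := hdist_le ((Fintype.equivFin (X n)).permCongr (ψ n (f₂ h0))) (n + 2) (by omega) (by
        rw [(ct_conj _ _).1, Fintype.card_fin]
        exact hψ1 n)
      refine le_trans h1 ?_
      push_cast
      apply one_div_le_one_div_of_le (by positivity)
      linarith
    · refine Eventually.of_forall fun n => ?_
      have : Nonempty (Fin (Fintype.card (X n))) := ⟨Fintype.equivFin (X n) (iN n).some⟩
      exact hdist_ge ((Fintype.equivFin (X n)).permCongr (ψ n u)) (n + 2) (by omega) (by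
        rw [(ct_conj _ _).2, Fintype.card_fin]
        exact hψ2 n)
    · intro m ρ
      exact amalg_kill f₁ f₂ h0 u hk1 hk2 (Perm (Fin m)) ρ
  refine ⟨fun h => key (flex_of_stable ((permStable_iff _).mp h)), fun r s hs h => key ?_⟩
  exact flex_of_wrt permCls_metric s (lift_surj s hs) (flexWrt_of_perm s h)

end Pool.Agent.N547.AS
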