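import Pool.Agent.N139.AS.Defs

/-!
# Project AS, OK: the axioms hold for the concrete group (helper547)
-/

set_option autoImplicit false

open Pool.Agent.N139.AS

namespace Pool.Agent.N547.AS.Ok

/-! ### shifts -/

/-- shift of the indices by `c` -/
noncomputable def TL (c : ℤ) (l : Lam) : Lam := Finsupp.mapDomain (fun i => i + c) l

/-- shift by `c` on the wreath product -/
noncomputable def Sh (p : ℕ) (c : ℤ) (x : NN p) : NN p := ⟨Finsupp.mapDomain (TL c) x.a, TL c x.l⟩

lemma TL_TL (c d : ℤ) (l : Lam) : TL c (TL d l) = TL (d + c) l := by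
  unfold TL
  rw [← Finsupp.mapDomain_comp]
  congr 1
  funext i
  simp only [Function.comp_apply]
  ring

lemma TL_zero_right (c : ℤ) : TL c 0 = 0 := by
  unfold TL
  exact Finsupp.mapDomain_zero

lemma Sh_Sh (p : ℕ) (c d : ℤ) (x : NN p) : Sh p c (Sh p d x) = Sh p (d + c) x := by
  ext1
  · show Finsupp.mapDomain (TL c) (Finsupp.mapDomain (TL d) x.a) = Finsupp.mapDomain (TL (d + c)) x.a
    rw [← Finsupp.mapDomain_comp]
    congr 1
    funext l
    exact TL_TL c d l
  · exact TL_TL c d x.l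

lemma Sh_one (p : ℕ) (c : ℤ) : Sh p c 1 = 1 := by
  ext1
  · show Finsupp.mapDomain (TL c) (0 : Lam →₀ ZMod p) = 0
    exact Finsupp.mapDomain_zero
  · exact TL_zero_right c

lemma shL_eq (l : Lam) : shL l = TL 1 l := by
  unfold shL TL
  rw [Finsupp.domCongr_apply, Finsupp.equivMapDomain_eq_mapDomain]
  rfl

lemma shL_symm_eq (l : Lam) : shL.symm l = TL (-1) l := by
  rw [AddEquiv.symm_apply_eq, shL_eq, TL_TL]
  unfold TL
  rw [show (fun i : ℤ => i + (-1 + 1)) = id by funext i; simp, Finsupp.mapDomain_id]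

lemma shN_eq (p : ℕ) (x : NN p) : shN p x = Sh p 1 x := by
  ext1
  · show shA p x.a = Finsupp.mapDomain (TL 1) x.a
    unfold shA
    rw [Finsupp.domCongr_apply, Finsupp.equivMapDomain_eq_mapDomain]
    congr 1
    funext l
    exact shL_eq l
  · exact shL_eq x.l

lemma Sh_zero (p : ℕ) (x : NN p) : Sh p 0 x = x := by
  have h : ∀ l, TL 0 l = l := by
    intro l
    unfold TL
    rw [show (fun i : ℤ => i + 0) = id by funext i; simp, Finsupp.mapDomain_id]
  ext1
  · show Finsupp.mapDomain (TL 0) x.a = x.a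
    rw [show TL 0 = id by funext l; exact h l, Finsupp.mapDomain_id]
  · exact h x.l

lemma shN_symm_eq (p : ℕ) (x : NN p) : Sh p (-1) (shN p x) = x := by
  rw [shN_eq, Sh_Sh]
  exact Sh_zero p x

lemma shN_pow (p : ℕ) (k : ℕ) (x : NN p) : ((shN p) ^ k) x = Sh p k x := by
  induction k generalizing x with
  | zero =>
    rw [pow_zero]
    simpa using (Sh_zero p x).symm
  | succ k ih =>
    rw [pow_succ, MulAut.mul_apply, ih, shN_eq, Sh_Sh]
    congr 1
    push_cast
    ring

/-! ### folding -/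

lemma fi_add (q : ℕ) (i c : ℤ) : fi q (fi q i + c) = fi q (i + c) := by
  unfold fi
  congr 1
  have h : i % q - q + c = (i + c) + q * (-(i / q) - 1) := by
    have := Int.emod_add_mul_ediv i q
    linarith
  rw [h, Int.add_mul_emod_self_left]

lemma fi_per (q : ℕ) (i : ℤ) : fi q (i + q) = fi q i := by
  unfold fi
  congr 1
  simp

lemma fi_mem (q : ℕ) (hq : 0 < q) (i : ℤ) : -(q : ℤ) ≤ fi q i ∧ fi q i < 0 := by
  have hq' : (0 : ℤ) < q := by exact_mod_cast hq
  have h1 := Int.emod_nonneg i hq'.ne'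
  have h2 := Int.emod_lt_of_pos i hq'
  unfold fi
  constructor <;> linarith

lemma fi_id (q : ℕ) (i : ℤ) (h1 : -(q : ℤ) ≤ i) (h2 : i < 0) : fi q i = i := by
  unfold fi
  have h3 : i % q = i + q := by
    rw [← Int.add_emod_right]
    exact Int.emod_eq_of_lt (by linarith) (by linarith)
  rw [h3]
  ring

lemma fL_def (q : ℕ) (l : Lam) : fL q l = Finsupp.mapDomain (fi q) l := rfl

lemma fL_TL (q : ℕ) (c : ℤ) (l : Lam) : fL q (TL c (fL q l)) = fL q (TL c l) := by
  rw [fL_def, fL_def, fL_def]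
  unfold TL
  rw [← Finsupp.mapDomain_comp, ← Finsupp.mapDomain_comp, ← Finsupp.mapDomain_comp]
  congr 1
  funext i
  exact fi_add q i c

lemma fL_per (q : ℕ) (l : Lam) : fL q (TL q l) = fL q l := by
  rw [fL_def, fL_def]
  unfold TL
  rw [← Finsupp.mapDomain_comp]
  congr 1
  funext i
  exact fi_per q i

lemma fN_Sh (p q : ℕ) (c : ℤ) (x : NN p) : fN p q (Sh p c (fN p q x)) = fN p q (Sh p c x) := by
  ext1
  · show Finsupp.mapDomain (fL q) (Finsupp.mapDomain (TL c) (Finsupp.mapDomain (fL q) x.a)) =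
      Finsupp.mapDomain (fL q) (Finsupp.mapDomain (TL c) x.a)
    rw [← Finsupp.mapDomain_comp, ← Finsupp.mapDomain_comp, ← Finsupp.mapDomain_comp]
    congr 1
    funext l
    exact fL_TL q c l
  · exact fL_TL q c x.l

lemma fN_per (p q : ℕ) (x : NN p) : fN p q (Sh p q x) = fN p q x := by
  ext1
  · show Finsupp.mapDomain (fL q) (Finsupp.mapDomain (TL q) x.a) = Finsupp.mapDomain (fL q) x.a
    rw [← Finsupp.mapDomain_comp]
    congr 1
    funext l
    exact fL_per q l
  · exact fL_per q x.l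

lemma InL_fL (q : ℕ) (hq : 0 < q) (l : Lam) : InL (-(q : ℤ)) 0 (fL q l) := by
  classical
  intro j hj
  rw [fL_def] at hj
  have h1 := Finsupp.mapDomain_support (Finsupp.mem_support_iff.2 hj)
  obtain ⟨i, -, rfl⟩ := Finset.mem_image.1 h1
  exact fi_mem q hq i

lemma fL_id (q : ℕ) (l : Lam) (h : InL (-(q : ℤ)) 0 l) : fL q l = l := by
  rw [fL_def]
  have h1 : Finsupp.mapDomain (fi q) l = Finsupp.mapDomain id l :=
    Finsupp.mapDomain_congr fun i hi => by
      obtain ⟨h2, h3⟩ := h i (Finsupp.mem_support_iff.1 hi)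
      exact fi_id q i h2 h3
  rw [h1, Finsupp.mapDomain_id]

/-! ### windows -/

lemma InL_shL (a b : ℤ) (l : Lam) : InL (a + 1) (b + 1) (shL l) ↔ InL a b l := by
  constructor
  · intro h i hi
    have := h (i + 1) (by rw [shL_apply]; simpa using hi)
    constructor <;> linarith [this.1, this.2]
  · intro h i hi
    rw [shL_apply] at hi
    have := h (i - 1) hi
    constructor <;> linarith [this.1, this.2]

lemma mem_shift (p : ℕ) (a b : ℤ) (x : NN p) : shN p x ∈ WN p (a + 1) (b + 1) ↔ x ∈ WN p a b := by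
  constructor
  · rintro ⟨h1, h2⟩
    refine ⟨(InL_shL a b x.l).1 h1, fun y hy => ?_⟩
    rw [← InL_shL]
    refine h2 (shL y) ?_
    show shA p x.a (shL y) ≠ 0
    rw [shA_apply, AddEquiv.symm_apply_apply]
    exact hy
  · rintro ⟨h1, h2⟩
    refine ⟨(InL_shL a b x.l).2 h1, fun y hy => ?_⟩
    have hy' : shA p x.a y ≠ 0 := hy
    rw [shA_apply] at hy'
    have h3 := (InL_shL a b _).2 (h2 _ hy')
    rwa [AddEquiv.apply_symm_apply] at h3

lemma InL_mono {a b a' b' : ℤ} (ha : a' ≤ a) (hb : b ≤ b') {l : Lam} (h : InL a b l) :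
    InL a' b' l := fun i hi => ⟨ha.trans (h i hi).1, (h i hi).2.trans_le hb⟩

lemma finite_InL (a b : ℤ) : Finite {l : Lam // InL a b l} := by
  refine Finite.of_injective (β := Finset.Ico a b → ZMod 2) (fun l i => l.1 i) ?_
  intro l m h
  apply Subtype.ext
  ext i
  by_cases hi : i ∈ Finset.Ico a b
  · exact congrFun h ⟨i, hi⟩
  · have h1 : l.1 i = 0 := by
      by_contra hne
      exact hi (Finset.mem_Ico.2 (l.2 i hne))
    have h2 : m.1 i = 0 := by
      by_contra hne
      exact hi (Finset.mem_Ico.2 (m.2 i hne))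
    rw [h1, h2]

lemma finite_WN (p : ℕ) [Fact p.Prime] (a b : ℤ) : Finite (WN p a b) := by
  have h1 := finite_InL a b
  refine Finite.of_injective (β := {l : Lam // InL a b l} × ({l : Lam // InL a b l} → ZMod p))
    (fun x => (⟨x.1.l, x.2.1⟩, fun y => x.1.a y.1)) ?_
  intro x y h
  rw [Prod.mk.injEq, Subtype.mk.injEq] at h
  apply Subtype.ext
  ext1
  · ext z
    by_cases hz : InL a b z
    · exact congrFun h.2 ⟨z, hz⟩
    · have h2 : x.1.a z = 0 := by
        by_contra hne
        exact hz (x.2.2 z hne)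
      have h3 : y.1.a z = 0 := by
        by_contra hne
        exact hz (y.2.2 z hne)
      rw [h2, h3]
  · exact h.1

lemma exh (p : ℕ) (x : NN p) : ∃ r : ℕ, x ∈ WN p (-r) r := by
  classical
  let s : Finset ℤ := x.l.support ∪ x.a.support.biUnion (fun y => y.support)
  have hr : ∀ i ∈ s, -((s.sup Int.natAbs + 1 : ℕ) : ℤ) ≤ i ∧ i < ((s.sup Int.natAbs + 1 : ℕ) : ℤ) := by
    intro i hi
    have h1 : i.natAbs ≤ s.sup Int.natAbs := Finset.le_sup (f := Int.natAbs) hi
    omega
  refine ⟨s.sup Int.natAbs + 1, ?_, ?_⟩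
  · intro i hi
    exact hr i (Finset.mem_union_left _ (Finsupp.mem_support_iff.2 hi))
  · intro y hy i hi
    exact hr i (Finset.mem_union_right _ (Finset.mem_biUnion.2
      ⟨y, Finsupp.mem_support_iff.2 hy, Finsupp.mem_support_iff.2 hi⟩))

theorem ok (p : ℕ) [Fact p.Prime] : (SS p).Ok where
  mono := by
    intro a b a' b' ha hb x hx
    exact ⟨InL_mono ha hb hx.1, fun y hy => InL_mono ha hb (hx.2 y hy)⟩
  shift := fun a b n => mem_shift p a b n
  fin := fun a b => finite_WN p a b
  exh := fun n => exh p n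
  f_mem := by
    intro q n hq
    classical
    refine ⟨InL_fL q hq n.l, ?_⟩
    intro y hy
    have hy' : Finsupp.mapDomain (fL q) n.a y ≠ 0 := hy
    have h1 := Finsupp.mapDomain_support (Finsupp.mem_support_iff.2 hy')
    obtain ⟨z, -, rfl⟩ := Finset.mem_image.1 h1
    exact InL_fL q hq z
  f_id := by
    intro q n hq hn
    ext1
    · show Finsupp.mapDomain (fL q) n.a = n.a
      have h1 : Finsupp.mapDomain (fL q) n.a = Finsupp.mapDomain id n.a :=
        Finsupp.mapDomain_congr fun y hy => fL_id q y (hn.2 y (Finsupp.mem_support_iff.1 hy))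
      rw [h1, Finsupp.mapDomain_id]
    · exact fL_id q n.l hn.1
  f_per := by
    intro q n hq
    show fN p q (((shN p) ^ q) n) = fN p q n
    rw [shN_pow]
    exact fN_per p q n
  f_ker := by
    intro q n hq
    show fN p q (shN p n) = 1 ↔ fN p q n = 1
    constructor
    · intro h
      have h1 := fN_Sh p q (-1) (shN p n)
      rw [h, Sh_one, map_one, shN_symm_eq] at h1
      exact h1.symm
    · intro h
      have h1 := fN_Sh p q 1 n
      rw [h, Sh_one, map_one, ← shN_eq] at h1
      exact h1.symm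

end Pool.Agent.N547.AS.Ok
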