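import Pool.Agent.N139.AS.Stm
import Pool.Agent.N547.AS.OkA

/-! # Project AS, OK (helper547) -/

set_option autoImplicit false

namespace Pool.Agent.N547.AS

theorem t_OK : Pool.Agent.N139.AS.S_OK := by
  intro p _
  exact Ok.ok p

end Pool.Agent.N547.AS
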