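import Pool.Agent.N413.AS.REDH

/-! # Project AS, REDP (helper547; the reduction is `Pool.Agent.N413.AS.red` of helper413) -/

set_option autoImplicit false

namespace Pool.Agent.N547.AS

open Pool.Agent.N139.AS
open Pool.Agent.H698R3 Pool.Agent.H698R3.Amalg
open Pool.Agent.N413.AS (red)

theorem pm_le {d : ℕ} {σ τ : Equiv.Perm (Fin d)} {ε : ℝ} (hε : 0 < ε) (P : Fin d → Prop)
    (h : ct P ≤ ε * Fintype.card (Fin d)) (hP : ∀ x, σ x ≠ τ x → P x) :
    Stab.hammingDist σ τ ≤ ε := by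
  classical
  unfold Stab.hammingDist
  rcases Nat.eq_zero_or_pos d with rfl | hd
  · simp [hε.le]
  · have hd' : (0 : ℝ) < Fintype.card (Fin d) := by
      rw [Fintype.card_fin]
      exact_mod_cast hd
    rw [div_le_iff₀ hd']
    refine le_trans ?_ h
    unfold ct
    have h1 : (Finset.univ.filter (fun x => σ x ≠ τ x)) ⊆ Finset.univ.filter P := by
      intro x hx
      rw [Finset.mem_filter] at hx ⊢
      exact ⟨hx.1, hP x hx.2⟩
    have h2 := Finset.card_le_card h1
    have h3 : (((Finset.univ.filter (fun x => σ x ≠ τ x)).card : ℕ) : ℝ) ≤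
        ((Finset.univ.filter P).card : ℝ) := by exact_mod_cast h2
    convert h3

/-- **REDP.** -/
theorem t_REDP (h : S_FIN) : S_REDP := by
  intro N _ _ S hS hyp
  rw [permStable_iff]
  refine red permCls_metric (fun F _ _ A B φ => (permStable_iff _).1 (hnn_fin h F A B φ).1) hS ?_
  intro m ε hε
  obtain ⟨R, hR, h1⟩ := hyp m ε hε
  refine ⟨R, hR, fun d α t ha => ?_⟩
  obtain ⟨ψ, h2⟩ := h1 (Fin d) α t ha
  exact ⟨ψ, pm_le hε _ h2 (fun x hx => Or.inl hx),
    fun n hn => pm_le hε _ h2 (fun x hx => Or.inr ⟨n, hn, hx⟩)⟩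

end Pool.Agent.N547.AS
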