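import Pool.Agent.H698R4.FxWrt

/-! # Project AS, the abstract non-stability lemma (helper547) -/

set_option autoImplicit false

namespace Pool.Agent.N547.AS

open Filter Topology Pool.Agent.H698R3.Amalg Pool.Agent.H698R4

section

variable {𝒞 : Cls}

/-- the elements which are asymptotically mapped to `1` -/
def asy (hm : 𝒞.IsMetric) {G : Type} [Group G] {k : ℕ → ℕ} (F : ∀ n, G →* 𝒞.C (k n)) :
    Subgroup G where
  carrier := {r | Tendsto (fun n => 𝒞.d (k n) (F n r) 1) atTop (𝓝 0)}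
  one_mem' := by
    refine tendsto_const_nhds.congr fun n => ?_
    rw [map_one, hm.self]
  mul_mem' := by
    intro a b ha hb
    refine squeeze_zero (fun n => hm.nonneg _ _ _) (fun n => ?_)
      (by have := Tendsto.add ha hb; rwa [add_zero] at this)
    have h1 := hm.mul_mul (k n) (F n a) 1 (F n b) 1
    rw [map_mul]
    rw [mul_one] at h1
    exact h1
  inv_mem' := by
    intro a ha
    refine Tendsto.congr (fun n => ?_) ha
    have h1 := hm.inv (k n) (F n a) 1
    rw [inv_one] at h1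
    rw [map_inv, h1]

theorem mem_asy (hm : 𝒞.IsMetric) {G : Type} [Group G] {k : ℕ → ℕ} (F : ∀ n, G →* 𝒞.C (k n))
    (r : G) : r ∈ asy hm F ↔ Tendsto (fun n => 𝒞.d (k n) (F n r) 1) atTop (𝓝 0) := Iff.rfl

theorem asy_normal (hm : 𝒞.IsMetric) {G : Type} [Group G] {k : ℕ → ℕ}
    (F : ∀ n, G →* 𝒞.C (k n)) : (asy hm F).Normal where
  conj_mem := by
    intro a ha g
    refine Tendsto.congr (fun n => ?_) ha
    have h1 := hm.left (k n) (F n g) (F n a * (F n g)⁻¹) (F n g)⁻¹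
    have h2 := hm.right (k n) (F n g)⁻¹ (F n a) 1
    rw [one_mul] at h2
    rw [mul_inv_cancel] at h1
    rw [map_mul, map_mul, map_inv, mul_assoc, h1, h2]

theorem asy_diff (hm : 𝒞.IsMetric) {G : Type} [Group G] {k : ℕ → ℕ} (F : ∀ n, G →* 𝒞.C (k n))
    (x y : G) (h : y⁻¹ * x ∈ asy hm F) :
    Tendsto (fun n => 𝒞.d (k n) (F n x) (F n y)) atTop (𝓝 0) := by
  refine Tendsto.congr (fun n => ?_) h
  have h1 := hm.left (k n) (F n y) (F n (y⁻¹ * x)) 1
  rw [← map_mul, mul_inv_cancel_left, mul_one] at h1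
  exact h1.symm

/-- If a homomorphism of `G₂` to groups of the class is asymptotically trivial on the amalgamated
cyclic subgroup and far from trivial at `u`, while every homomorphism of the amalgam to groups of
the class kills `u`, then the amalgam is not flexibly stable. -/
theorem not_flex {O : Ops 𝒞} (hm : 𝒞.IsMetric) {H G₁ G₂ : Type} [Group H] [Group G₁] [Group G₂]
    (f₁ : H →* G₁) (f₂ : H →* G₂) (h0 : H) (u : G₂) (hz : ∀ x : H, x ∈ Subgroup.zpowers h0)
    (k : ℕ → ℕ) (ψ : ∀ n, G₂ →* 𝒞.C (k n))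
    (h1 : Tendsto (fun n => 𝒞.d (k n) (ψ n (f₂ h0)) 1) atTop (𝓝 0))
    (c : ℝ) (hc : 0 < c) (h2 : ∀ᶠ n in atTop, c ≤ 𝒞.d (k n) (ψ n u) 1)
    (kill : ∀ (m : ℕ) (ρ : AmalgProd f₁ f₂ →* 𝒞.C m),
      ρ (QuotientGroup.mk (Monoid.Coprod.inr u)) = 1) :
    ¬ Flex O (AmalgProd f₁ f₂) := by
  intro hfl
  let F : ∀ n, Monoid.Coprod G₁ G₂ →* 𝒞.C (k n) := fun n => Monoid.Coprod.lift 1 (ψ n)
  have hF2 : ∀ n g, F n (Monoid.Coprod.inr g) = ψ n g := fun n g =>
    Monoid.Coprod.lift_apply_inr _ _ _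
  have hF1 : ∀ n g, F n (Monoid.Coprod.inl g) = 1 := fun n g =>
    Monoid.Coprod.lift_apply_inl _ _ _
  have hn := asy_normal hm F
  have hN : Subgroup.normalClosure
      (Set.range (fun h : H => (Monoid.Coprod.inl (f₁ h) : Monoid.Coprod G₁ G₂) *
        (Monoid.Coprod.inr (f₂ h))⁻¹)) ≤ asy hm F := by
    refine Subgroup.normalClosure_le_normal ?_
    rintro _ ⟨h, rfl⟩
    refine (asy hm F).mul_mem ?_ ((asy hm F).inv_mem ?_)
    · refine tendsto_const_nhds.congr fun n => ?_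
      rw [hF1, hm.self]
    · have h3 : Subgroup.zpowers h0 ≤ (asy hm F).comap (Monoid.Coprod.inr.comp f₂) := by
        rw [Subgroup.zpowers_le]
        show Tendsto (fun n => 𝒞.d (k n) (F n (Monoid.Coprod.inr (f₂ h0))) 1) atTop (𝓝 0)
        refine h1.congr fun n => ?_
        rw [hF2]
      exact h3 (hz h)
  have hdiff : ∀ x y : Monoid.Coprod G₁ G₂, (QuotientGroup.mk x : AmalgProd f₁ f₂) =
      QuotientGroup.mk y → Tendsto (fun n => 𝒞.d (k n) (F n x) (F n y)) atTop (𝓝 0) := by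
    intro x y hxy
    exact asy_diff hm F x y (hN (QuotientGroup.eq.mp hxy.symm))
  have hsurj : Function.Surjective (QuotientGroup.mk : Monoid.Coprod G₁ G₂ → AmalgProd f₁ f₂) :=
    QuotientGroup.mk_surjective
  choose sec hsec using hsurj
  obtain ⟨m, hkm, ψ', hb, hψ'⟩ := hfl k (fun n g => F n (sec g)) (by
    intro a b
    refine (hdiff (sec a * sec b) (sec (a * b)) ?_).congr fun n => ?_
    · rw [QuotientGroup.mk_mul, hsec, hsec, hsec]
    · rw [map_mul])
  set z : AmalgProd f₁ f₂ := QuotientGroup.mk (Monoid.Coprod.inr u) with hzz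
  have e0 := (hdiff (sec z) (Monoid.Coprod.inr u) (hsec z)).eventually
    (gt_mem_nhds (half_pos hc))
  have e1 := hb 1 one_pos
  have e2 := (hψ' z).eventually (gt_mem_nhds (show (0 : ℝ) < c / 4 by linarith))
  obtain ⟨n, g1, g2, g3, g4⟩ := (e1.and (e2.and (e0.and h2))).exists
  have h3 : m n ≤ 2 * k n := by
    have : (m n : ℝ) ≤ ((2 * k n : ℕ) : ℝ) := by push_cast; linarith
    exact_mod_cast this
  have h4 := O.ex_d' (hkm n) h3 (F n (sec z)) 1
  rw [map_one] at h4
  rw [kill] at g2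
  have h5 := hm.tri (k n) (F n (Monoid.Coprod.inr u)) (F n (sec z)) 1
  rw [hm.symm (k n) (F n (Monoid.Coprod.inr u)) (F n (sec z)), hF2] at h5
  rw [hF2] at g3
  linarith

end

end Pool.Agent.N547.AS
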